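import Mathlib

open scoped Topology
open Filter

namespace Pool.Agent.Lib_helper75.LUR

/-- `(x i, f i)`, `i : I`, is an extended Markushevich basis of the normed space `E`:
biorthogonal, with dense linear span of the vectors and a total family of functionals. -/
structure IsExtendedMBasis (𝕜 : Type*) [RCLike 𝕜] {E : Type*} [NormedAddCommGroup E]
    [NormedSpace 𝕜 E] {I : Type*} (x : I → E) (f : I → (E →L[𝕜] 𝕜)) : Prop where
  apply_self : ∀ i, f i (x i) = 1
  apply_ne : ∀ i j, i ≠ j → f i (x j) = 0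
  fundamental : (Submodule.span 𝕜 (Set.range x)).topologicalClosure = ⊤
  total : ∀ y : E, (∀ i, f i y = 0) → y = 0

/-- The seminorm `N` is a norm on `E` equivalent to the given one. -/
def IsEquivalentNorm (𝕜 : Type*) [RCLike 𝕜] {E : Type*} [NormedAddCommGroup E]
    [NormedSpace 𝕜 E] (N : Seminorm 𝕜 E) : Prop :=
  ∃ a b : ℝ, 0 < a ∧ 0 < b ∧ ∀ x : E, a * ‖x‖ ≤ N x ∧ N x ≤ b * ‖x‖

/-- The (semi)norm `N` is locally uniformly convex (LUR). -/
def IsLUR (𝕜 : Type*) [RCLike 𝕜] {E : Type*} [NormedAddCommGroup E]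
    [NormedSpace 𝕜 E] (N : Seminorm 𝕜 E) : Prop :=
  ∀ (x : E) (u : ℕ → E), N x = 1 → (∀ n, N (u n) = 1) →
    Tendsto (fun n => N (u n + x)) atTop (𝓝 2) → Tendsto (fun n => N (u n - x)) atTop (𝓝 0)

end Pool.Agent.Lib_helper75.LUR
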