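import Pool.Agent.Lib_helper75.LUR.Defs

open scoped ENNReal Topology
open Filter

namespace Pool.Agent.Lib_helper75.LUR

section basis

variable (𝕜 : Type) [RCLike 𝕜]

/-- `ℓ_∞(ℕ)` -/
abbrev X : Type := lp (fun _ : ℕ => 𝕜) ∞

/-- the index set: bounded sequences with `‖x n‖ ≤ n`. -/
abbrev Γ : Type := {x : X 𝕜 // ∀ n : ℕ, ‖x n‖ ≤ n}

/-- `ℓ_1(Γ)` -/
abbrev Z : Type := lp (fun _ : Γ 𝕜 => 𝕜) 1

variable {𝕜}

/-- a bounded sequence as an element of `ℓ_∞` -/
def mkX (g : ℕ → 𝕜) (C : ℝ) (h : ∀ n, ‖g n‖ ≤ C) : X 𝕜 :=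
  ⟨g, memℓp_infty ⟨C, by rintro _ ⟨n, rfl⟩; exact h n⟩⟩

@[simp] lemma mkX_apply (g : ℕ → 𝕜) (C : ℝ) (h : ∀ n, ‖g n‖ ≤ C) (n : ℕ) :
    mkX g C h n = g n := rfl

lemma X_norm_le {x : X 𝕜} {C : ℝ} (h : ∀ n, ‖x n‖ ≤ C) : ‖x‖ ≤ C :=
  lp.norm_le_of_forall_le' C h

lemma X_apply_le (x : X 𝕜) (n : ℕ) : ‖x n‖ ≤ ‖x‖ :=
  lp.norm_apply_le_norm (by simp) x n

@[simp] lemma X_add (x y : X 𝕜) (n : ℕ) : (x + y) n = x n + y n := rfl
@[simp] lemma X_sub (x y : X 𝕜) (n : ℕ) : (x - y) n = x n - y n := rfl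
@[simp] lemma X_smul (c : 𝕜) (y : X 𝕜) (n : ℕ) : (c • y) n = c * y n := rfl

lemma X_ext {x y : X 𝕜} (h : ∀ n, x n = y n) : x = y := by
  apply lp.ext; funext n; exact h n

lemma summable_norm_Z (z : Z 𝕜) : Summable (fun i => ‖z i‖) := by
  simpa using (lp.memℓp z).summable (by simp)

lemma norm_Z (z : Z 𝕜) : ‖z‖ = ∑' i, ‖z i‖ := by
  simpa using lp.norm_eq_tsum_rpow (p := 1) (by simp) z

lemma summable_mul_Z (z : Z 𝕜) (g : Γ 𝕜 → 𝕜) (C : ℝ) (hg : ∀ i, ‖g i‖ ≤ C) :
    Summable (fun i => z i * g i) := by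
  apply Summable.of_norm_bounded (g := fun i => ‖z i‖ * C) ((summable_norm_Z z).mul_right C)
  intro i
  rw [norm_mul]
  exact mul_le_mul_of_nonneg_left (hg i) (norm_nonneg _)

/-- pairing of `ℓ_1(Γ)` with a bounded function -/
noncomputable def pairZ (g : Γ 𝕜 → 𝕜) (C : ℝ) (hg : ∀ i, ‖g i‖ ≤ C) : Z 𝕜 →L[𝕜] 𝕜 :=
  LinearMap.mkContinuous
    { toFun := fun z => ∑' i, z i * g i
      map_add' := by
        intro z w
        rw [← (summable_mul_Z z g C hg).tsum_add (summable_mul_Z w g C hg)]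
        congr 1; funext i
        change (z i + w i) * g i = _
        ring
      map_smul' := by
        intro c z
        simp only [RingHom.id_apply, smul_eq_mul]
        rw [← tsum_mul_left]
        congr 1; funext i
        change (c * z i) * g i = _
        ring } C
    (by
      intro z
      change ‖∑' i, z i * g i‖ ≤ C * ‖z‖
      have h1 : ∀ i, ‖z i * g i‖ ≤ ‖z i‖ * C := fun i => by
        rw [norm_mul]
        exact mul_le_mul_of_nonneg_left (hg i) (norm_nonneg _)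
      have h2 : HasSum (fun i => ‖z i‖ * C) (‖z‖ * C) := by
        rw [norm_Z]
        exact (summable_norm_Z z).hasSum.mul_right C
      rw [mul_comm]
      exact tsum_of_norm_bounded h2 h1)

lemma pairZ_apply (g : Γ 𝕜 → 𝕜) (C : ℝ) (hg : ∀ i, ‖g i‖ ≤ C) (z : Z 𝕜) :
    pairZ g C hg z = ∑' i, z i * g i := rfl

/-- unit vector of `ℓ_∞` -/
noncomputable def eX (n : ℕ) : X 𝕜 := lp.single ∞ n (1 : 𝕜)

open Classical in
/-- unit vector of `ℓ_1(Γ)` -/
noncomputable def eZ (i : Γ 𝕜) : Z 𝕜 := lp.single 1 i (1 : 𝕜)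

lemma eX_self (n : ℕ) : (eX n : X 𝕜) n = 1 := by
  unfold eX; exact lp.single_apply_self _ _ _

lemma eX_ne {n m : ℕ} (h : m ≠ n) : (eX n : X 𝕜) m = 0 := by
  unfold eX; exact lp.single_apply_ne _ _ _ h

lemma eZ_self (i : Γ 𝕜) : (eZ i : Z 𝕜) i = 1 := by
  classical
  unfold eZ; exact lp.single_apply_self _ _ _

lemma eZ_ne {i j : Γ 𝕜} (h : j ≠ i) : (eZ i : Z 𝕜) j = 0 := by
  classical
  unfold eZ; exact lp.single_apply_ne _ _ _ h

lemma pairZ_eZ (g : Γ 𝕜 → 𝕜) (C : ℝ) (hg : ∀ i, ‖g i‖ ≤ C) (i : Γ 𝕜) :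
    pairZ g C hg (eZ i) = g i := by
  rw [pairZ_apply, tsum_eq_single i, eZ_self, one_mul]
  intro j hj
  rw [eZ_ne hj, zero_mul]

lemma eZ_norm (i : Γ 𝕜) : ‖(eZ i : Z 𝕜)‖ ≤ 1 := by
  classical
  unfold eZ
  rw [lp.norm_single (by simp)]
  simp

/-- A functional on `Z` vanishing at all unit vectors is zero. -/
lemma Z_ext (φ : Z 𝕜 →L[𝕜] 𝕜) (h : ∀ i, φ (eZ i) = 0) : φ = 0 := by
  classical
  apply lp.ext_continuousLinearMap (by simp)
  intro i
  ext
  simp only [ContinuousLinearMap.comp_apply, ContinuousLinearMap.zero_comp,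
    zero_apply, lp.singleContinuousLinearMap_apply]
  have := h i
  unfold eZ at this
  convert this

/-- index set of the basis -/
abbrev I (𝕜 : Type) [RCLike 𝕜] : Type := ℕ ⊕ Γ 𝕜

/-- vectors -/
noncomputable def vec : I 𝕜 → X 𝕜 × Z 𝕜
  | Sum.inl n => (eX n, 0)
  | Sum.inr i => (i.1, eZ i)

/-- functionals -/
noncomputable def fn : I 𝕜 → (X 𝕜 × Z 𝕜 →L[𝕜] 𝕜)
  | Sum.inl n => (lp.evalCLM 𝕜 (fun _ : ℕ => 𝕜) ∞ n).comp (ContinuousLinearMap.fst 𝕜 (X 𝕜) (Z 𝕜)) -
      (pairZ (fun i => i.1 n) n (fun i => i.2 n)).comp (ContinuousLinearMap.snd 𝕜 (X 𝕜) (Z 𝕜))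
  | Sum.inr i => (lp.evalCLM 𝕜 (fun _ : Γ 𝕜 => 𝕜) 1 i).comp
      (ContinuousLinearMap.snd 𝕜 (X 𝕜) (Z 𝕜))

lemma fn_inl (n : ℕ) (w : X 𝕜 × Z 𝕜) :
    fn (Sum.inl n) w = w.1 n - pairZ (fun i => i.1 n) n (fun i => i.2 n) w.2 := rfl

lemma fn_inr (i : Γ 𝕜) (w : X 𝕜 × Z 𝕜) : fn (Sum.inr i) w = w.2 i := rfl

/-- key: a functional on `ℓ_∞`, zero at unit vectors and bounded on `Γ`, is zero -/
lemma key (φ : X 𝕜 →L[𝕜] 𝕜) (C : ℝ) (h0 : ∀ n, φ (eX n) = 0) (hC : ∀ i : Γ 𝕜, ‖φ i.1‖ ≤ C) :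
    φ = 0 := by
  have hfin : ∀ (M : ℕ) (y : X 𝕜), (∀ n, M ≤ n → y n = 0) → φ y = 0 := by
    intro M y hy
    have hsum : y = ∑ n ∈ Finset.range M, (y n) • (eX n : X 𝕜) := by
      apply X_ext
      intro m
      rw [lp.coeFn_sum, Finset.sum_apply]
      by_cases hm : m < M
      · rw [Finset.sum_eq_single m]
        · simp [eX_self]
        · intro k _ hk
          simp [eX_ne (Ne.symm hk)]
        · intro h; exact absurd (Finset.mem_range.mpr hm) h
      · rw [hy m (not_lt.mp hm), Finset.sum_eq_zero]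
        intro k hk
        have : m ≠ k := by
          intro h; rw [h] at hm; exact hm (Finset.mem_range.mp hk)
        simp [eX_ne this]
    rw [hsum, map_sum]
    apply Finset.sum_eq_zero
    intro k _
    rw [map_smul, h0, smul_zero]
  ext x
  rw [zero_apply]
  have hbound : ∀ t : ℕ, (t : ℝ) * ‖φ x‖ ≤ C := by
    intro t
    set M : ℕ := ⌈(t : ℝ) * ‖x‖⌉₊ with hM
    have hMle : (t : ℝ) * ‖x‖ ≤ M := Nat.le_ceil _
    let g : ℕ → 𝕜 := fun n => if M ≤ n then (t : 𝕜) * x n else 0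
    have hg1 : ∀ n, ‖g n‖ ≤ (t : ℝ) * ‖x‖ := by
      intro n
      by_cases h : M ≤ n
      · simp only [g, h, if_true, norm_mul, RCLike.norm_natCast]
        exact mul_le_mul_of_nonneg_left (X_apply_le x n) (Nat.cast_nonneg t)
      · simp only [g, h, if_false, norm_zero]
        positivity
    have hg2 : ∀ n : ℕ, ‖g n‖ ≤ n := by
      intro n
      by_cases h : M ≤ n
      · exact (hg1 n).trans (hMle.trans (by exact_mod_cast h))
      · simp [g, h]
    let x' : X 𝕜 := mkX g _ hg1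
    have hx' : φ x' = (t : 𝕜) * φ x := by
      have h1 : φ ((t : 𝕜) • x - x') = 0 := by
        apply hfin M
        intro n hn
        rw [X_sub, X_smul]
        simp [x', g, hn]
      rw [map_sub, map_smul, smul_eq_mul, sub_eq_zero] at h1
      exact h1.symm
    have := hC ⟨x', hg2⟩
    simp only at this
    rw [hx', norm_mul, RCLike.norm_natCast] at this
    exact this
  by_contra hne
  have hpos : 0 < ‖φ x‖ := norm_pos_iff.mpr hne
  obtain ⟨t, ht⟩ := exists_nat_gt (C / ‖φ x‖)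
  rw [div_lt_iff₀ hpos] at ht
  exact absurd (hbound t) (not_le.mpr ht)

/-- A subspace annihilated only by the zero functional is dense. -/
lemma dense_of_annihilator {E : Type} [NormedAddCommGroup E] [NormedSpace 𝕜 E]
    (S : Submodule 𝕜 E) (h : ∀ φ : E →L[𝕜] 𝕜, (∀ y ∈ S, φ y = 0) → φ = 0) :
    S.topologicalClosure = ⊤ := by
  by_contra hne
  obtain ⟨x, hx⟩ : ∃ x, x ∉ S.topologicalClosure := by
    by_contra hcon
    push Not at hcon
    exact hne (Submodule.eq_top_iff'.mpr hcon)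
  have : IsClosed (S.topologicalClosure : Set E) := S.isClosed_topologicalClosure
  have hq : S.topologicalClosure.mkQL x ≠ 0 := by
    rw [Submodule.mkQL_apply, Submodule.mkQ_apply, Ne, Submodule.Quotient.mk_eq_zero]
    exact hx
  obtain ⟨ψ, hψ⟩ := SeparatingDual.exists_ne_zero (R := 𝕜) hq
  have h0 := h (ψ.comp S.topologicalClosure.mkQL) (by
    intro y hy
    have : S.topologicalClosure.mkQL y = 0 := by
      rw [Submodule.mkQL_apply, Submodule.mkQ_apply, Submodule.Quotient.mk_eq_zero]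
      exact S.le_topologicalClosure hy
    rw [ContinuousLinearMap.comp_apply, this, map_zero])
  apply hψ
  have := congrArg (fun f : E →L[𝕜] 𝕜 => f x) h0
  simpa using this

lemma isMBasis : IsExtendedMBasis 𝕜 (vec (𝕜 := 𝕜)) fn where
  apply_self := by
    rintro (n | i)
    · rw [fn_inl]
      simp [vec, eX_self]
    · rw [fn_inr]
      simp [vec, eZ_self]
  apply_ne := by
    rintro (n | i) (m | j) hij
    · rw [fn_inl]
      have : n ≠ m := fun h => hij (by rw [h])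
      simp [vec, eX_ne this]
    · rw [fn_inl]
      simp [vec, pairZ_eZ]
    · rw [fn_inr]
      simp [vec]
    · rw [fn_inr]
      have : i ≠ j := fun h => hij (by rw [h])
      simp [vec, eZ_ne this]
  total := by
    rintro ⟨x, z⟩ h
    have hz : z = 0 := by
      apply lp.ext; funext i
      have := h (Sum.inr i)
      rw [fn_inr] at this
      simpa using this
    subst hz
    have hx : x = 0 := by
      apply X_ext
      intro n
      have := h (Sum.inl n)
      rw [fn_inl] at this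
      simpa using this
    rw [hx]; rfl
  fundamental := by
    apply dense_of_annihilator
    intro Φ hΦ
    have hv : ∀ i : I 𝕜, Φ (vec i) = 0 := fun i =>
      hΦ _ (Submodule.subset_span (Set.mem_range_self i))
    have h1 : Φ.comp (ContinuousLinearMap.inl 𝕜 (X 𝕜) (Z 𝕜)) = 0 := by
      apply key _ ‖Φ‖
      · intro n
        exact hv (Sum.inl n)
      · intro i
        have h2 : Φ (i.1, 0) = - Φ (0, eZ i) := by
          have h3 := hv (Sum.inr i)
          have h4 : (vec (Sum.inr i) : X 𝕜 × Z 𝕜) = (i.1, 0) + (0, eZ i) := by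
            simp [vec]
          rw [h4, map_add] at h3
          exact eq_neg_of_add_eq_zero_left h3
        have h5 : (Φ.comp (ContinuousLinearMap.inl 𝕜 (X 𝕜) (Z 𝕜))) i.1 = Φ (i.1, 0) := rfl
        rw [h5, h2, norm_neg]
        calc ‖Φ (0, eZ i)‖ ≤ ‖Φ‖ * ‖((0 : X 𝕜), (eZ i : Z 𝕜))‖ := Φ.le_opNorm _
          _ ≤ ‖Φ‖ * 1 := by
              apply mul_le_mul_of_nonneg_left _ (norm_nonneg _)
              rw [Prod.norm_mk, norm_zero]
              exact max_le zero_le_one (eZ_norm i)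
          _ = ‖Φ‖ := mul_one _
    have h1' : ∀ x : X 𝕜, Φ (x, 0) = 0 := fun x => by
      have := congrArg (fun f : X 𝕜 →L[𝕜] 𝕜 => f x) h1
      simpa using this
    have h2 : Φ.comp (ContinuousLinearMap.inr 𝕜 (X 𝕜) (Z 𝕜)) = 0 := by
      apply Z_ext
      intro i
      have h3 := hv (Sum.inr i)
      have h4 : (vec (Sum.inr i) : X 𝕜 × Z 𝕜) = (i.1, 0) + (0, eZ i) := by
        simp [vec]
      rw [h4, map_add, h1', zero_add] at h3
      exact h3
    have h2' : ∀ z : Z 𝕜, Φ (0, z) = 0 := fun z => by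
      have := congrArg (fun f : Z 𝕜 →L[𝕜] 𝕜 => f z) h2
      simpa using this
    ext w
    · exact h1' w
    · exact h2' _

end basis

section nolur

variable {𝕜 : Type} [RCLike 𝕜]

open Classical in
/-- restriction of `y` to `A` -/
noncomputable def cut (A : Set ℕ) (y : X 𝕜) : X 𝕜 :=
  mkX (fun n => if n ∈ A then y n else 0) ‖y‖ (by
    intro n
    split_ifs
    · exact X_apply_le y n
    · simp)

lemma cut_mem {A : Set ℕ} (y : X 𝕜) {n : ℕ} (h : n ∈ A) : cut A y n = y n := by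
  simp [cut, h]

lemma cut_notMem {A : Set ℕ} (y : X 𝕜) {n : ℕ} (h : n ∉ A) : cut A y n = 0 := by
  simp [cut, h]

lemma exists_cut (N : Seminorm 𝕜 (X 𝕜)) {b : ℝ} (hb : 0 < b) (hN : ∀ x, N x ≤ b * ‖x‖)
    (y : X 𝕜) (hy : ‖y‖ ≤ 1) (A : Set ℕ) (hA : A.Infinite) {δ : ℝ} (hδ : 0 < δ) :
    ∃ A' : Set ℕ, A' ⊆ A ∧ A'.Infinite ∧ N y - δ ≤ N (cut A'ᶜ y) := by
  classical
  let e := hA.natEmbedding
  let P : ℕ → Set ℕ := fun j => Set.range (fun m => ((e (Nat.pair j m) : A) : ℕ))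
  have hPinj : ∀ j, Function.Injective (fun m => ((e (Nat.pair j m) : A) : ℕ)) := by
    intro j m m' h
    have h1 := e.injective (Subtype.val_injective h)
    exact (Nat.pair_eq_pair.mp h1).2
  have hPinf : ∀ j, (P j).Infinite := fun j => Set.infinite_range_of_injective (hPinj j)
  have hPsub : ∀ j, P j ⊆ A := by
    rintro j _ ⟨m, rfl⟩
    exact (e (Nat.pair j m)).2
  have hPdisj : ∀ i j n, n ∈ P i → n ∈ P j → i = j := by
    rintro i j _ ⟨m, rfl⟩ ⟨m', h⟩
    have h1 := e.injective (Subtype.val_injective h)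
    exact (Nat.pair_eq_pair.mp h1).1.symm
  by_contra hcon
  push Not at hcon
  have hlt : ∀ j, N (cut (P j)ᶜ y) < N y - δ := fun j => hcon (P j) (hPsub j) (hPinf j)
  obtain ⟨K, hK⟩ := exists_nat_gt (b / δ)
  rw [div_lt_iff₀ hδ] at hK
  have hdecomp : (K : 𝕜) • y = ∑ j ∈ Finset.range K, cut (P j)ᶜ y +
      ∑ j ∈ Finset.range K, cut (P j) y := by
    rw [← Finset.sum_add_distrib]
    have : ∀ j ∈ Finset.range K, cut (P j)ᶜ y + cut (P j) y = y := by
      intro j _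
      apply X_ext
      intro n
      rw [X_add]
      by_cases h : n ∈ P j
      · rw [cut_mem y h, cut_notMem y (by simpa using h), zero_add]
      · rw [cut_notMem y h, cut_mem y (by simpa using h), add_zero]
    rw [Finset.sum_congr rfl this, Finset.sum_const, Finset.card_range]
    simp [Nat.cast_smul_eq_nsmul]
  have hsmall : ‖∑ j ∈ Finset.range K, cut (P j) y‖ ≤ 1 := by
    apply X_norm_le
    intro n
    rw [lp.coeFn_sum, Finset.sum_apply]
    by_cases h : ∃ j ∈ Finset.range K, n ∈ P j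
    · obtain ⟨j, hj, hn⟩ := h
      rw [Finset.sum_eq_single_of_mem j hj, cut_mem y hn]
      · exact (X_apply_le y n).trans hy
      · intro i _ hi
        apply cut_notMem
        intro hin
        exact hi (hPdisj i j n hin hn)
    · push Not at h
      rw [Finset.sum_eq_zero]
      · simp
      · intro j hj
        exact cut_notMem y (h j hj)
  have h1 : (K : ℝ) * N y ≤ K * (N y - δ) + b := by
    calc (K : ℝ) * N y = N ((K : 𝕜) • y) := by
          rw [map_smul_eq_mul, RCLike.norm_natCast]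
      _ ≤ N (∑ j ∈ Finset.range K, cut (P j)ᶜ y) + N (∑ j ∈ Finset.range K, cut (P j) y) := by
          rw [hdecomp]; exact map_add_le_add N _ _
      _ ≤ ∑ j ∈ Finset.range K, N (cut (P j)ᶜ y) + b * 1 := by
          apply add_le_add
          · exact Finset.le_sum_of_subadditive N (map_zero N).le (map_add_le_add N) _ _
          · exact (hN _).trans (mul_le_mul_of_nonneg_left hsmall hb.le)
      _ ≤ ∑ j ∈ Finset.range K, (N y - δ) + b * 1 := by
          gcongr with j _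
          exact (hlt j).le
      _ = K * (N y - δ) + b := by
          rw [Finset.sum_const, Finset.card_range, nsmul_eq_mul, mul_one]
  nlinarith

/-- elements of the unit ball agreeing with `x` off `A` -/
def F (x : X 𝕜) (A : Set ℕ) : Set (X 𝕜) := {y | ‖y‖ ≤ 1 ∧ ∀ n, n ∉ A → y n = x n}

/-- a state of the construction -/
structure St (𝕜 : Type) [RCLike 𝕜] where
  x : X 𝕜
  A : Set ℕ
  hA : A.Infinite
  hx : ‖x‖ ≤ 1
  h0 : ∀ n ∈ A, x n = 0

lemma step (N : Seminorm 𝕜 (X 𝕜)) {b : ℝ} (hb : 0 < b) (hN : ∀ x, N x ≤ b * ‖x‖)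
    (s : St 𝕜) {ε : ℝ} (hε : 0 < ε) :
    ∃ s' : St 𝕜, s'.A ⊆ s.A ∧ s'.x ∈ F s.x s.A ∧ ∀ y ∈ F s.x s.A, N y ≤ N s'.x + ε := by
  have hbdd : BddAbove (N '' F s.x s.A) := by
    refine ⟨b, ?_⟩
    rintro _ ⟨y, hy, rfl⟩
    exact (hN y).trans (by nlinarith [hy.1])
  have hne : (N '' F s.x s.A).Nonempty := ⟨N s.x, s.x, ⟨s.hx, fun _ _ => rfl⟩, rfl⟩
  obtain ⟨_, ⟨y, hy, rfl⟩, hylt⟩ := exists_lt_of_lt_csSup hne
    (show sSup (N '' F s.x s.A) - ε / 2 < sSup (N '' F s.x s.A) by linarith)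
  obtain ⟨A', hA'sub, hA'inf, hA'⟩ := exists_cut N hb hN y hy.1 s.A s.hA (half_pos hε)
  have hcutF : cut A'ᶜ y ∈ F s.x s.A := by
    constructor
    · apply X_norm_le
      intro n
      by_cases h : n ∈ A'
      · rw [cut_notMem y (by simpa using h)]; simp
      · rw [cut_mem y (by simpa using h)]; exact (X_apply_le y n).trans hy.1
    · intro n hn
      have : n ∉ A' := fun h => hn (hA'sub h)
      rw [cut_mem y (by simpa using this)]
      exact hy.2 n hn
  refine ⟨⟨cut A'ᶜ y, A', hA'inf, hcutF.1, fun n hn => cut_notMem y (by simpa using hn)⟩,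
    hA'sub, hcutF, ?_⟩
  intro z hz
  have h1 : N z ≤ sSup (N '' F s.x s.A) := le_csSup hbdd ⟨z, hz, rfl⟩
  simp only
  linarith

/-- homogeneous form of LUR -/
lemma lur_hom {E : Type} [NormedAddCommGroup E] [NormedSpace 𝕜 E] (N : Seminorm 𝕜 E)
    (h : IsLUR 𝕜 N) (x : E) (y : ℕ → E) (hx : 0 < N x) (hy0 : ∀ n, 0 < N (y n))
    (hy : Tendsto (fun n => N (y n)) atTop (𝓝 (N x)))
    (hxy : Tendsto (fun n => N (y n + x)) atTop (𝓝 (2 * N x))) :
    Tendsto (fun n => N (y n - x)) atTop (𝓝 0) := by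
  set m := N x with hm
  let X0 : E := ((m⁻¹ : ℝ) : 𝕜) • x
  let u : ℕ → E := fun n => (((N (y n))⁻¹ : ℝ) : 𝕜) • y n
  let r : ℕ → ℝ := fun n => |(N (y n))⁻¹ - m⁻¹| * N (y n)
  have hX0 : N X0 = 1 := by
    simp only [X0, map_smul_eq_mul, RCLike.norm_ofReal, abs_inv, abs_of_pos hx]
    rw [← hm]; exact inv_mul_cancel₀ hx.ne'
  have hu : ∀ n, N (u n) = 1 := by
    intro n
    simp only [u, map_smul_eq_mul, RCLike.norm_ofReal, abs_inv, abs_of_pos (hy0 n)]
    exact inv_mul_cancel₀ (hy0 n).ne'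
  have hr : Tendsto r atTop (𝓝 0) := by
    have h1 : Tendsto (fun n => |(N (y n))⁻¹ - m⁻¹| * N (y n)) atTop (𝓝 (|m⁻¹ - m⁻¹| * m)) :=
      (((hy.inv₀ hx.ne').sub_const _).abs).mul hy
    simpa using h1
  have hscal : ∀ n (c : ℝ) (_ : c = 1 ∨ c = -1),
      |N (u n + (c : 𝕜) • X0) - m⁻¹ * N (y n + (c : 𝕜) • x)| ≤ r n := by
    intro n c _
    have hA : N (((m⁻¹ : ℝ) : 𝕜) • (y n + (c : 𝕜) • x)) = m⁻¹ * N (y n + (c : 𝕜) • x) := by
      rw [map_smul_eq_mul, RCLike.norm_ofReal, abs_inv, abs_of_pos hx]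
    have hB : u n + (c : 𝕜) • X0 - ((m⁻¹ : ℝ) : 𝕜) • (y n + (c : 𝕜) • x) =
        ((((N (y n))⁻¹ - m⁻¹ : ℝ)) : 𝕜) • y n := by
      simp only [u, X0]
      push_cast
      module
    rw [← hA]
    refine (abs_sub_map_le_sub N _ _).trans ?_
    rw [hB, map_smul_eq_mul, RCLike.norm_ofReal]
  have h2 : Tendsto (fun n => N (u n + X0)) atTop (𝓝 2) := by
    have h3 : Tendsto (fun n => N (u n + X0) - m⁻¹ * N (y n + x)) atTop (𝓝 0) := by
      apply squeeze_zero_norm _ hr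
      intro n
      have := hscal n 1 (Or.inl rfl)
      simpa using this
    have h4 : Tendsto (fun n => m⁻¹ * N (y n + x)) atTop (𝓝 (m⁻¹ * (2 * m))) :=
      hxy.const_mul _
    have h5 := h3.add h4
    have h6 : m⁻¹ * (2 * m) = 2 := by field_simp
    rw [h6, zero_add] at h5
    refine h5.congr ?_
    intro n; ring
  have h7 := h X0 u hX0 hu h2
  have h8 : Tendsto (fun n => m * (N (u n - X0) + r n)) atTop (𝓝 0) := by
    have := (h7.add hr).const_mul m
    simpa using this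
  apply squeeze_zero (fun n => apply_nonneg N _) _ h8
  intro n
  have h9 := hscal n (-1) (Or.inr rfl)
  have h10 : N (y n - x) ≤ m * (m⁻¹ * N (y n - x)) := by
    rw [← mul_assoc, mul_inv_cancel₀ hx.ne', one_mul]
  refine h10.trans (mul_le_mul_of_nonneg_left ?_ hx.le)
  have h11 : u n + ((-1 : ℝ) : 𝕜) • X0 = u n - X0 := by
    push_cast; module
  have h12 : y n + ((-1 : ℝ) : 𝕜) • x = y n - x := by
    push_cast; module
  rw [h11, h12] at h9
  have := (abs_le.mp h9).1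
  linarith

/-- No equivalent norm on `ℓ_∞` is LUR. -/
theorem X_not_LUR (N : Seminorm 𝕜 (X 𝕜)) (hN : IsEquivalentNorm 𝕜 N) : ¬ IsLUR 𝕜 N := by
  classical
  intro hLUR
  obtain ⟨a, b, ha, hb, hab⟩ := hN
  have hNb : ∀ x, N x ≤ b * ‖x‖ := fun x => (hab x).2
  have hNa : ∀ x, a * ‖x‖ ≤ N x := fun x => (hab x).1
  -- the sequence of states
  let ε : ℕ → ℝ := fun n => 1 / ((n : ℝ) + 1)
  have hε : ∀ n, 0 < ε n := fun n => Nat.one_div_pos_of_nat
  have hεlim : Tendsto ε atTop (𝓝 0) := tendsto_one_div_add_atTop_nhds_zero_nat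
  choose f hf1 hf2 hf3 using fun (n : ℕ) (s : St 𝕜) => step N hb hNb s (hε n)
  let s0 : St 𝕜 := ⟨0, Set.univ, Set.infinite_univ, by simp, fun _ _ => rfl⟩
  let s : ℕ → St 𝕜 := fun n => Nat.rec s0 (fun n t => f n t) n
  have hs : ∀ n, s (n + 1) = f n (s n) := fun n => rfl
  have hA : ∀ n, (s (n + 1)).A ⊆ (s n).A := fun n => by rw [hs]; exact hf1 n (s n)
  have hF1 : ∀ n, (s (n + 1)).x ∈ F (s n).x (s n).A := fun n => by rw [hs]; exact hf2 n (s n)
  have hmax : ∀ n, ∀ y ∈ F (s n).x (s n).A, N y ≤ N (s (n + 1)).x + ε n := fun n => by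
    rw [hs]; exact hf3 n (s n)
  have hAanti : Antitone (fun n => (s n).A) := antitone_nat_of_succ_le hA
  have hconst : ∀ n m, n ≤ m → ∀ k, k ∉ (s n).A → (s m).x k = (s n).x k := by
    intro n m hnm
    induction m, hnm using Nat.le_induction with
    | base => intro k _; rfl
    | succ m hm ih =>
      intro k hk
      have hk' : k ∉ (s m).A := fun h => hk (hAanti hm h)
      rw [(hF1 m).2 k hk', ih k hk]
  -- the limit point
  let xg : ℕ → 𝕜 := fun k => if h : ∃ n, k ∉ (s n).A then (s (Nat.find h)).x k else 0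
  have hxg : ∀ k, ‖xg k‖ ≤ 1 := by
    intro k
    by_cases h : ∃ n, k ∉ (s n).A
    · simp only [xg, h, dif_pos]
      exact (X_apply_le _ k).trans (s _).hx
    · simp [xg, h]
  let xi : X 𝕜 := mkX xg 1 hxg
  have hxi1 : ‖xi‖ ≤ 1 := X_norm_le hxg
  have hxiF : ∀ n, xi ∈ F (s n).x (s n).A := by
    intro n
    refine ⟨hxi1, ?_⟩
    intro k hk
    have h : ∃ n, k ∉ (s n).A := ⟨n, hk⟩
    have h1 : xi k = (s (Nat.find h)).x k := by
      simp only [xi, mkX_apply, xg, h, dif_pos]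
    rw [h1]
    exact (hconst _ _ (Nat.find_min' h hk) k (Nat.find_spec h)).symm
  have hsub : ∀ n, F (s (n + 1)).x (s (n + 1)).A ⊆ F (s n).x (s n).A := by
    intro n y hy
    refine ⟨hy.1, ?_⟩
    intro k hk
    have hk' : k ∉ (s (n + 1)).A := fun h => hk (hA n h)
    rw [hy.2 k hk', (hF1 n).2 k hk]
  -- oscillation of `N` on `F (s (n+1))`
  have hosc : ∀ n, ∀ y ∈ F (s (n + 1)).x (s (n + 1)).A, |N y - N (s (n + 1)).x| ≤ ε n := by
    intro n y hy
    have h1 : N y ≤ N (s (n + 1)).x + ε n := hmax n y (hsub n hy)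
    set x' := (s (n + 1)).x with hx'
    let y' : X 𝕜 := (2 : 𝕜) • x' - y
    have hy' : y' ∈ F x' (s (n + 1)).A := by
      constructor
      · apply X_norm_le
        intro k
        by_cases hk : k ∈ (s (n + 1)).A
        · have h0 : x' k = 0 := (s (n + 1)).h0 k hk
          simp only [y', X_sub, X_smul, h0, mul_zero, zero_sub, norm_neg]
          exact (X_apply_le y k).trans hy.1
        · have h0 : y k = x' k := hy.2 k hk
          simp only [y', X_sub, X_smul, h0]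
          have : (2 : 𝕜) * x' k - x' k = x' k := by ring
          rw [this]
          exact (X_apply_le x' k).trans (s (n + 1)).hx
      · intro k hk
        have h0 : y k = x' k := hy.2 k hk
        simp only [y', X_sub, X_smul, h0]
        ring
    have h2 : N y' ≤ N x' + ε n := hmax n y' (hsub n hy')
    have h3 : 2 * N x' ≤ N y + N y' := by
      have h4 : (2 : 𝕜) • x' = y + y' := by simp only [y']; abel
      calc 2 * N x' = N ((2 : 𝕜) • x') := by rw [map_smul_eq_mul, RCLike.norm_ofNat]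
        _ ≤ N y + N y' := by rw [h4]; exact map_add_le_add N _ _
    rw [abs_le]
    constructor <;> linarith
  -- the sequence
  have hk : ∀ n, ∃ k, k ∈ (s (n + 1)).A := fun n => (s (n + 1)).hA.nonempty
  choose k hk using hk
  have hc : ∀ w : 𝕜, ∃ c : 𝕜, ‖c‖ = 1 ∧ 1 ≤ ‖c - w‖ := by
    intro w
    by_contra hcon
    push Not at hcon
    have h1 := hcon 1 (by simp)
    have h2 := hcon (-1) (by simp)
    have h3 : (2 : ℝ) ≤ ‖(1 : 𝕜) - w‖ + ‖(-1 : 𝕜) - w‖ := by
      calc (2 : ℝ) = ‖((1 : 𝕜) - w) - (-1 - w)‖ := by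
            have : ((1 : 𝕜) - w) - (-1 - w) = 2 := by ring
            rw [this, RCLike.norm_ofNat]
        _ ≤ _ := norm_sub_le _ _
    linarith
  choose c hc1 hc2 using fun n => hc (xi (k n))
  have hyb : ∀ n j, ‖(if j = k n then c n else xi j : 𝕜)‖ ≤ 1 := by
    intro n j
    split_ifs
    · exact (hc1 n).le
    · exact (X_apply_le xi j).trans hxi1
  let y : ℕ → X 𝕜 := fun n => mkX (fun j => if j = k n then c n else xi j) 1 (hyb n)
  have hyk : ∀ n, y n (k n) = c n := fun n => by simp [y]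
  have hyj : ∀ n j, j ≠ k n → y n j = xi j := fun n j hj => by simp [y, hj]
  have hyF : ∀ n, y n ∈ F (s (n + 1)).x (s (n + 1)).A := by
    intro n
    refine ⟨X_norm_le (hyb n), ?_⟩
    intro j hj
    have hjk : j ≠ k n := fun h => hj (h ▸ hk n)
    rw [hyj n j hjk]
    exact (hxiF (n + 1)).2 j hj
  have hhalf : ∀ n, (2⁻¹ : 𝕜) • (y n + xi) ∈ F (s (n + 1)).x (s (n + 1)).A := by
    intro n
    constructor
    · rw [norm_smul, norm_inv, RCLike.norm_ofNat]
      have : ‖y n + xi‖ ≤ 1 + 1 := (norm_add_le _ _).trans (add_le_add (hyF n).1 hxi1)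
      linarith
    · intro j hj
      rw [X_smul, X_add, (hyF n).2 j hj, (hxiF (n + 1)).2 j hj]
      ring
  have h1 : ∀ n, |N (y n) - N xi| ≤ 2 * ε n := by
    intro n
    have e1 := abs_le.mp (hosc n _ (hyF n))
    have e2 := abs_le.mp (hosc n _ (hxiF (n + 1)))
    rw [abs_le]; constructor <;> linarith [e1.1, e1.2, e2.1, e2.2]
  have h2 : ∀ n, |N (y n + xi) - 2 * N xi| ≤ 4 * ε n := by
    intro n
    have e1 := abs_le.mp (hosc n _ (hhalf n))
    have e2 := abs_le.mp (hosc n _ (hxiF (n + 1)))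
    have e3 : N ((2⁻¹ : 𝕜) • (y n + xi)) = 2⁻¹ * N (y n + xi) := by
      rw [map_smul_eq_mul, norm_inv, RCLike.norm_ofNat]
    rw [e3] at e1
    rw [abs_le]; constructor <;> linarith [e1.1, e1.2, e2.1, e2.2]
  have h2ε : Tendsto (fun n => 2 * ε n) atTop (𝓝 0) := by simpa using hεlim.const_mul 2
  have h4ε : Tendsto (fun n => 4 * ε n) atTop (𝓝 0) := by simpa using hεlim.const_mul 4
  have hNy : Tendsto (fun n => N (y n)) atTop (𝓝 (N xi)) := by
    rw [tendsto_iff_norm_sub_tendsto_zero]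
    exact squeeze_zero (fun n => norm_nonneg _) h1 h2ε
  have hNyx : Tendsto (fun n => N (y n + xi)) atTop (𝓝 (2 * N xi)) := by
    rw [tendsto_iff_norm_sub_tendsto_zero]
    exact squeeze_zero (fun n => norm_nonneg _) h2 h4ε
  have hylow : ∀ n, a ≤ N (y n) := by
    intro n
    have : 1 ≤ ‖y n‖ := by
      have := X_apply_le (y n) (k n)
      rwa [hyk, hc1] at this
    calc a = a * 1 := (mul_one a).symm
      _ ≤ a * ‖y n‖ := mul_le_mul_of_nonneg_left this ha.le
      _ ≤ N (y n) := hNa _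
  have hxipos : 0 < N xi := lt_of_lt_of_le ha (ge_of_tendsto' hNy hylow)
  have hfin := lur_hom N hLUR xi y hxipos (fun n => lt_of_lt_of_le ha (hylow n)) hNy hNyx
  have hge : ∀ n, a ≤ N (y n - xi) := by
    intro n
    have : 1 ≤ ‖y n - xi‖ := by
      have := X_apply_le (y n - xi) (k n)
      rw [X_sub, hyk] at this
      exact (hc2 n).trans this
    calc a = a * 1 := (mul_one a).symm
      _ ≤ a * ‖y n - xi‖ := mul_le_mul_of_nonneg_left this ha.le
      _ ≤ N (y n - xi) := hNa _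
  have := ge_of_tendsto' hfin hge
  linarith

/-- No equivalent norm on `ℓ_∞ × ℓ_1(Γ)` is LUR. -/
theorem E_not_LUR (N : Seminorm 𝕜 (X 𝕜 × Z 𝕜)) (hN : IsEquivalentNorm 𝕜 N) :
    ¬ IsLUR 𝕜 N := by
  intro hLUR
  let N' : Seminorm 𝕜 (X 𝕜) := N.comp (LinearMap.inl 𝕜 (X 𝕜) (Z 𝕜))
  have hN' : ∀ x, N' x = N (x, 0) := fun x => rfl
  apply X_not_LUR N'
  · obtain ⟨a, b, ha, hb, h⟩ := hN
    refine ⟨a, b, ha, hb, fun x => ?_⟩
    have := h (x, 0)
    rw [Prod.norm_mk, norm_zero, max_eq_left (norm_nonneg _)] at this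
    exact this
  · intro x u hx hu hlim
    have := hLUR (x, 0) (fun n => (u n, 0)) hx hu (by
      refine hlim.congr fun n => ?_
      rw [hN']; simp)
    refine this.congr fun n => ?_
    rw [hN']; simp

end nolur

/-- the main statement -/
theorem main (𝕜 : Type) [RCLike 𝕜] :
    ∃ (E : Type) (_ : NormedAddCommGroup E) (_ : NormedSpace 𝕜 E) (_ : CompleteSpace E),
      (∃ (I : Type) (x : I → E) (f : I → (E →L[𝕜] 𝕜)), IsExtendedMBasis 𝕜 x f) ∧
      ∀ N : Seminorm 𝕜 E, IsEquivalentNorm 𝕜 N → ¬ IsLUR 𝕜 N :=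
  ⟨X 𝕜 × Z 𝕜, inferInstance, inferInstance, inferInstance, ⟨I 𝕜, vec, fn, isMBasis⟩, E_not_LUR⟩

end Pool.Agent.Lib_helper75.LUR
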